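import Mathlib
import Pool.Agent.Run7.h118.Nested

set_option autoImplicit false

open Set Filter Topology Pool.Agent.Run7.h118

namespace Pool.Agent.Results.MP_73b818_gt.NestedRetractions

/-- Let `X` be a compact metric ANR (a closed subset of the Hilbert cube which is a retract of an
open neighbourhood), let `S ⊆ X` be a compact AR (a retract of the Hilbert cube), and let `R t`,
`0 ≤ t ≤ 1`, be a jointly continuous family of maps of `X` to itself with `R 0 = id`, `R 1` a
retraction of `X` onto `S` and `R s ∘ R t = R t` for `s ≤ t` (a nested family of retractions).  Let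
`A ⊆ X` be nonempty and closed, and suppose that `A` misses `S` or that `A ∩ S` is the fixed point
set of a self-map of `S`.  Then `A` is the fixed point set of a self-map of `X`. -/
theorem result :
    ∀ X : Set (ℕ → unitInterval), IsClosed X →
      (∃ U : Set (ℕ → unitInterval), IsOpen U ∧ X ⊆ U ∧
        ∃ r : (ℕ → unitInterval) → (ℕ → unitInterval),
          ContinuousOn r U ∧ Set.MapsTo r U X ∧ ∀ x ∈ X, r x = x) →
      ∀ S : Set (ℕ → unitInterval), S ⊆ X →
      (∃ q : (ℕ → unitInterval) → (ℕ → unitInterval),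
          Continuous q ∧ (∀ x, q x ∈ S) ∧ ∀ x ∈ S, q x = x) →
      ∀ R : unitInterval → (ℕ → unitInterval) → (ℕ → unitInterval),
      ContinuousOn (fun p : unitInterval × (ℕ → unitInterval) => R p.1 p.2) (Set.univ ×ˢ X) →
      (∀ t, Set.MapsTo (R t) X X) →
      (∀ x ∈ X, R 0 x = x) →
      (∀ x ∈ X, R 1 x ∈ S) →
      (∀ x ∈ S, R 1 x = x) →
      (∀ s t, s ≤ t → ∀ x ∈ X, R s (R t x) = R t x) →
      ∀ A : Set (ℕ → unitInterval), A ⊆ X → A.Nonempty → IsClosed A →
      (A ∩ S = ∅ ∨ ∃ g : (ℕ → unitInterval) → (ℕ → unitInterval),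
          ContinuousOn g S ∧ Set.MapsTo g S S ∧ {x | x ∈ S ∧ g x = x} = A ∩ S) →
        ∃ f : (ℕ → unitInterval) → (ℕ → unitInterval),
          ContinuousOn f X ∧ Set.MapsTo f X X ∧ {x | x ∈ X ∧ f x = x} = A := by
  classical
  rintro X hXcl ⟨U, hU, hXU, r, hr, hm, hid⟩ S hSX ⟨q, hq, hqS, hqid⟩ R hR hRX hR0 hR1 hRS
    hRR A hAX hAne hAcl hAS
  have : CompactSpace X := isCompact_iff_compactSpace.mp hXcl.isCompact
  letI : MetricSpace X := TopologicalSpace.metrizableSpaceMetric X
  obtain ⟨O, l, hO, hdiag, hl, hl0, hl1, hls⟩ := lec_of_anr hU hXU hr hm hid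
  -- the real-parameter version of `R`
  set R' : ℝ → X → X := fun t x => ⟨R (projIcc 0 1 zero_le_one t) x, hRX _ x.2⟩ with hR'
  have hR'c : Continuous fun p : X × ℝ => R' p.2 p.1 := by
    refine Continuous.subtype_mk ?_ _
    have hin : Continuous fun p : X × ℝ =>
        ((projIcc 0 1 zero_le_one p.2 : unitInterval), (p.1 : ℕ → unitInterval)) :=
      (continuous_projIcc.comp continuous_snd).prodMk
        (continuous_subtype_val.comp continuous_fst)
    exact hR.comp_continuous hin (fun p => ⟨mem_univ _, p.1.2⟩)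
  have hR'0 : ∀ x, R' 0 x = x := by
    intro x
    apply Subtype.ext
    simp only [hR', projIcc_left]
    exact hR0 x x.2
  have hR'one : ∀ x : X, (R' 1 x : ℕ → unitInterval) = R 1 x := by
    intro x
    simp only [hR', projIcc_right]
    rfl
  set S' : Set X := {x | (x : ℕ → unitInterval) ∈ S} with hS'
  have hR'1 : ∀ x, R' 1 x ∈ S' := by
    intro x
    show (R' 1 x : ℕ → unitInterval) ∈ S
    rw [hR'one]
    exact hR1 x x.2
  have hR'S : ∀ x ∈ S', R' 1 x = x := by
    intro x hx
    apply Subtype.ext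
    rw [hR'one]
    exact hRS x hx
  have hR'R : ∀ s t, 0 ≤ s → s ≤ t → t ≤ 1 → ∀ x, R' s (R' t x) = R' t x := by
    intro s t _ hst _ x
    apply Subtype.ext
    exact hRR _ _ (monotone_projIcc _ hst) x x.2
  obtain ⟨a0, ha0⟩ := hAne
  -- a free contraction of `X`
  set x0 : X := R' 1 ⟨a0, hAX ha0⟩ with hx0
  have hqX : ∀ z, q z ∈ X := fun z => hSX (hqS z)
  set K2 : X → ℝ → X := fun x s =>
    ⟨q (seg (R' 1 x : ℕ → unitInterval) (x0 : ℕ → unitInterval) s), hqX _⟩ with hK2
  have hR'1c : Continuous (R' 1) := hR'c.comp (Continuous.prodMk_left 1)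
  have hK2c : Continuous fun p : X × ℝ => K2 p.1 p.2 := by
    refine Continuous.subtype_mk ?_ _
    exact hq.comp (continuous_seg.comp (((continuous_subtype_val.comp
      (hR'1c.comp continuous_fst)).prodMk continuous_const).prodMk continuous_snd))
  have hRK : ∀ x, R' 1 x = K2 x 0 := by
    intro x
    apply Subtype.ext
    simp only [hK2]
    rw [seg_zero, hqid _ (hR'1 x)]
  set K : X → ℝ → X := conc (fun x s => R' s x) K2 with hK
  have hKc : Continuous fun p : X × ℝ => K p.1 p.2 := continuous_conc _ _ hR'c hK2c hRK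
  have hK0 : ∀ x, K x 0 = x := by
    intro x
    rw [hK, conc_zero]
    exact hR'0 x
  have hK1 : ∀ x, K x 1 = x0 := by
    intro x
    rw [hK, conc_one]
    apply Subtype.ext
    simp only [hK2]
    rw [seg_one, hqid _ (hR'1 _)]
  have hκ : ∀ a : X, ∃ κ : X → ℝ → X, Continuous (fun p : X × ℝ => κ p.1 p.2) ∧
      (∀ x, κ x 0 = x) ∧ (∀ x, κ x 1 = a) ∧ ∀ s, κ a s = a :=
    fun a => rel_contraction hO hdiag hl hl0 hl1 hls K hKc hK0 x0 hK1 a
  set A' : Set X := {x | (x : ℕ → unitInterval) ∈ A} with hA'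
  -- homotopical form of the hypothesis on `A ∩ S`
  have hSh : (A' ∩ S').Nonempty → ∃ G : S' → ℝ → S',
      Continuous (fun p : S' × ℝ => G p.1 p.2) ∧ (∀ x, G x 0 = x) ∧
      (∀ x, G x 1 = x ↔ (x : X) ∈ A' ∩ S') ∧
        ∀ x : S', (x : X) ∈ A' ∩ S' → ∀ s ∈ Icc (0 : ℝ) 1, G x s = x := by
    rintro ⟨z, hzA, hzS⟩
    obtain ⟨g, hg, hgS, hgB⟩ : ∃ g : (ℕ → unitInterval) → (ℕ → unitInterval),
        ContinuousOn g S ∧ Set.MapsTo g S S ∧ {x | x ∈ S ∧ g x = x} = A ∩ S := by
      rcases hAS with h | h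
      · exfalso
        have : (z : ℕ → unitInterval) ∈ A ∩ S := ⟨hzA, hzS⟩
        rw [h] at this
        exact this
      · exact h
    set G : S' → ℝ → S' := fun x s =>
      ⟨⟨q (seg ((x : X) : ℕ → unitInterval) (g ((x : X) : ℕ → unitInterval)) s), hqX _⟩,
        hqS _⟩ with hG
    have hgc : Continuous fun x : S' => g ((x : X) : ℕ → unitInterval) :=
      hg.comp_continuous (continuous_subtype_val.comp continuous_subtype_val) (fun x => x.2)
    refine ⟨G, ?_, ?_, ?_, ?_⟩
    · refine Continuous.subtype_mk (Continuous.subtype_mk ?_ _) _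
      exact hq.comp (continuous_seg.comp (((continuous_subtype_val.comp
        (continuous_subtype_val.comp continuous_fst)).prodMk
        (hgc.comp continuous_fst)).prodMk continuous_snd))
    · intro x
      apply Subtype.ext
      apply Subtype.ext
      simp only [hG]
      rw [seg_zero]
      exact hqid _ x.2
    · intro x
      have h1 : ((G x 1 : X) : ℕ → unitInterval) = g ((x : X) : ℕ → unitInterval) := by
        simp only [hG]
        rw [seg_one]
        exact hqid _ (hgS x.2)
      have h2 : ((x : X) : ℕ → unitInterval) ∈ A ∩ S ↔ (x : X) ∈ A' ∩ S' := Iff.rfl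
      rw [← h2, ← hgB]
      constructor
      · intro h
        refine ⟨x.2, ?_⟩
        rw [← h1, h]
      · rintro ⟨_, h⟩
        apply Subtype.ext
        apply Subtype.ext
        rw [h1]
        exact h
    · intro x hx s _
      have hxB : ((x : X) : ℕ → unitInterval) ∈ A ∩ S := hx
      rw [← hgB] at hxB
      apply Subtype.ext
      apply Subtype.ext
      simp only [hG]
      rw [hxB.2, seg_self]
      exact hqid _ x.2
  have hA'cl : IsClosed A' := hAcl.preimage continuous_subtype_val
  have hA'ne : A'.Nonempty := ⟨⟨a0, hAX ha0⟩, ha0⟩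
  obtain ⟨f, hf, hfA⟩ := nested_retraction hκ S' R' hR'c hR'0 hR'1 hR'S hR'R hSh hA'cl hA'ne
  refine ⟨fun x => if h : x ∈ X then (f ⟨x, h⟩ : ℕ → unitInterval) else x, ?_, ?_, ?_⟩
  · rw [continuousOn_iff_continuous_domRestrict]
    have : X.domRestrict (fun x => if h : x ∈ X then (f ⟨x, h⟩ : ℕ → unitInterval) else x)
        = fun x : X => (f x : ℕ → unitInterval) := by
      ext x
      simp [Set.domRestrict]
    rw [this]
    exact continuous_subtype_val.comp hf
  · intro x hx
    simp only [dif_pos hx]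
    exact (f ⟨x, hx⟩).2
  · ext x
    constructor
    · rintro ⟨hx, hfx⟩
      simp only [dif_pos hx] at hfx
      exact (hfA ⟨x, hx⟩).mp (Subtype.ext hfx)
    · intro hx
      refine ⟨hAX hx, ?_⟩
      simp only [dif_pos (hAX hx)]
      have := (hfA ⟨x, hAX hx⟩).mpr hx
      rw [this]

end Pool.Agent.Results.MP_73b818_gt.NestedRetractions
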