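import Mathlib
import Pool.Agent.Run7.h118.Product

set_option autoImplicit false

open Set Filter Topology Metric Pool.Agent.Run7.h118

namespace Pool.Agent.Results.MP_73b818_gt.ProductWithCube

/-- Let `X` be a compact subset of `ℝⁿ` which is a retract of an open neighbourhood (a compact
Euclidean neighbourhood retract).  Then `X × [0,1]ⁿ` has the complete invariance property: every
nonempty closed `A ⊆ X × [0,1]ⁿ` is exactly the fixed point set of a self-map. -/
theorem result :
    ∀ (n : ℕ) (X : Set (Fin n → ℝ)), IsCompact X →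
      (∃ U : Set (Fin n → ℝ), IsOpen U ∧ X ⊆ U ∧
        ∃ r : (Fin n → ℝ) → (Fin n → ℝ),
          ContinuousOn r U ∧ Set.MapsTo r U X ∧ ∀ x ∈ X, r x = x) →
      ∀ A : Set ((Fin n → ℝ) × (Fin n → ℝ)), A ⊆ X ×ˢ Set.Icc 0 1 → A.Nonempty → IsClosed A →
        ∃ f : (Fin n → ℝ) × (Fin n → ℝ) → (Fin n → ℝ) × (Fin n → ℝ),
          ContinuousOn f (X ×ˢ Set.Icc 0 1) ∧
          Set.MapsTo f (X ×ˢ Set.Icc 0 1) (X ×ˢ Set.Icc 0 1) ∧
          {p | p ∈ X ×ˢ Set.Icc (0 : Fin n → ℝ) 1 ∧ f p = p} = A := by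
  classical
  rintro n X hX ⟨U, hU, hXU, r, hr, hm, hid⟩ A hAXY hAne hA
  set Y : Set (Fin n → ℝ) := Set.Icc 0 1 with hY
  have hYconv : Convex ℝ Y := convex_Icc 0 1
  have hcY : closedBall (fun _ => (1 / 2 : ℝ) : Fin n → ℝ) (1 / 2) ⊆ Y := by
    intro y hy
    rw [mem_closedBall, dist_pi_le_iff (by norm_num)] at hy
    constructor
    · intro i
      have := hy i
      rw [Real.dist_eq, abs_le] at this
      simp only [Pi.zero_apply]
      linarith [this.1]
    · intro i
      have := hy i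
      rw [Real.dist_eq, abs_le] at this
      simp only [Pi.one_apply]
      linarith [this.2]
  obtain ⟨a, ha⟩ := id hAne
  -- small balls are pushed into a single component
  have hloc : ∀ y ∈ X, ∃ δ > 0, ball y δ ⊆ U ∧ IsPathConnected (r '' ball y δ) ∧
      r '' ball y δ ⊆ X ∧ y ∈ r '' ball y δ := by
    intro y hy
    obtain ⟨δ, hδ, hδU⟩ := Metric.isOpen_iff.mp hU y (hXU hy)
    refine ⟨δ, hδ, hδU, ?_, ?_, ⟨y, mem_ball_self hδ, hid y hy⟩⟩
    · exact ((convex_ball y δ).isPathConnected ⟨y, mem_ball_self hδ⟩).image'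
        (hr.mono hδU)
    · rintro _ ⟨z, hz, rfl⟩
      exact hm (hδU hz)
  have hcomp : ∀ x ∈ X, ∀ y ∈ connectedComponentIn X x, ∃ δ > 0, ball y δ ⊆ U ∧
      IsPathConnected (r '' ball y δ) ∧ r '' ball y δ ⊆ connectedComponentIn X x ∧
        y ∈ r '' ball y δ := by
    intro x hx y hy
    obtain ⟨δ, hδ, hδU, hpc, hsub, hmem⟩ := hloc y (connectedComponentIn_subset X x hy)
    refine ⟨δ, hδ, hδU, hpc, ?_, hmem⟩
    have h1 : r '' ball y δ ⊆ connectedComponentIn X y :=
      hpc.isConnected.isPreconnected.subset_connectedComponentIn hmem hsub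
    rwa [← connectedComponentIn_eq hy] at h1
  have hnear : ∀ x ∈ X, ∀ y ∈ connectedComponentIn X x, ∃ δ > 0, ∀ z ∈ X, dist z y < δ →
      z ∈ connectedComponentIn X x := by
    intro x hx y hy
    obtain ⟨δ, hδ, hδU, -, hsub, -⟩ := hcomp x hx y hy
    exact ⟨δ, hδ, fun z hz hzy => hsub ⟨z, hzy, hid z hz⟩⟩
  -- the theorem on one component
  have hmain : ∀ C : Set (Fin n → ℝ), (∃ x ∈ X, C = connectedComponentIn X x) →
      ∃ f : (Fin n → ℝ) × (Fin n → ℝ) → (Fin n → ℝ) × (Fin n → ℝ), Continuous f ∧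
        (∀ p ∈ C ×ˢ Y, f p ∈ X ×ˢ Y) ∧ ∀ p ∈ C ×ˢ Y, f p = p ↔ p ∈ A := by
    rintro C ⟨x, hx, rfl⟩
    set C := connectedComponentIn X x with hC
    have hCX : C ⊆ X := connectedComponentIn_subset X x
    by_cases hAC : (A ∩ C ×ˢ Y).Nonempty
    · have hCcl : IsClosed C := by
        have h1 : closure C ⊆ C :=
          isPreconnected_connectedComponentIn.closure.subset_connectedComponentIn
            (subset_closure (mem_connectedComponentIn hx))
            (hX.isClosed.closure_subset_iff.mpr hCX)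
        exact closure_subset_iff_isClosed.mp h1
      have hCc : IsCompact C := hX.of_isClosed_subset hCcl hCX
      have hCconn : IsConnected C := isConnected_connectedComponentIn_iff.mpr hx
      have hCpc : IsPathConnected C := by
        rw [isPathConnected_iff]
        refine ⟨hCconn.nonempty, fun y hy z hz => ?_⟩
        refine hCconn.isPreconnected.induction₂ (fun y z => JoinedIn C y z) ?_ ?_ ?_ hy hz
        · intro y hy
          obtain ⟨δ, hδ, -, hpc, hsub, hmem⟩ := hcomp x hx y hy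
          filter_upwards [self_mem_nhdsWithin, mem_nhdsWithin_of_mem_nhds (ball_mem_nhds y hδ)]
            with z hz hzb
          exact (hpc.joinedIn y hmem z ⟨z, hzb, hid z (hCX hz)⟩).mono hsub
        · intro y z w _ _ _ h1 h2
          exact h1.trans h2
        · intro y z _ _ h
          exact h.symm
      -- an open neighbourhood retracting to `C`
      set UC : Set (Fin n → ℝ) := {w | w ∈ U ∧ r w ∈ C} with hUC
      have hUCo : IsOpen UC := by
        rw [isOpen_iff_mem_nhds]
        rintro w ⟨hw, hwC⟩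
        obtain ⟨δ, hδ, hδC⟩ := hnear x hx (r w) hwC
        have hcont : ContinuousAt r w := hr.continuousAt (hU.mem_nhds hw)
        filter_upwards [hU.mem_nhds hw, hcont.eventually (ball_mem_nhds (r w) hδ)] with z hz1 hz2
        exact ⟨hz1, hδC _ (hm hz1) hz2⟩
      have hCU : C ⊆ UC := fun y hy => ⟨hXU (hCX hy), by rw [hid y (hCX hy)]; exact hy⟩
      obtain ⟨δ, hδ, hδU⟩ := hCc.exists_cthickening_subset_open hUCo hCU
      set W0 : Set (Fin n → ℝ) := cthickening δ C with hW0
      have hW0c : IsCompact W0 := hCc.cthickening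
      have hCW : C ⊆ interior W0 := by
        refine (self_subset_thickening hδ C).trans ?_
        exact interior_maximal (thickening_subset_cthickening δ C) isOpen_thickening
      have hrW0 : ContinuousOn r W0 := hr.mono (fun w hw => (hδU hw).1)
      obtain ⟨g, hg⟩ := ContinuousMap.exists_restrict_eq hW0c.isClosed
        ⟨W0.domRestrict r, continuousOn_iff_continuous_domRestrict.mp hrW0⟩
      have hgr : ∀ w ∈ W0, g w = r w := by
        intro w hw
        exact congrArg (fun φ : C(W0, Fin n → ℝ) => φ ⟨w, hw⟩) hg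
      have hCW0 : C ⊆ W0 := hCW.trans interior_subset
      obtain ⟨f, hf, hfm, hfA⟩ := core_product hCc hCpc hW0c hCW g g.continuous
        (fun w hw => by rw [hgr w hw]; exact (hδU hw).2)
        (fun y hy => by rw [hgr y (hCW0 hy)]; exact hid y (hCX hy))
        hYconv (by norm_num : (0 : ℝ) < 1 / 2) hcY (A := A ∩ C ×ˢ Y)
        (hA.inter (hCcl.prod isClosed_Icc)) inter_subset_right hAC
      refine ⟨f, hf, fun p hp => ⟨hCX (hfm hp).1, (hfm hp).2⟩, fun p hp => ?_⟩
      rw [hfA p hp]
      exact ⟨fun h => h.1, fun h => ⟨h, hp⟩⟩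
    · rw [not_nonempty_iff_eq_empty] at hAC
      have hnot : ∀ p ∈ C ×ˢ Y, p ∉ A := by
        intro p hp hpA
        have : p ∈ A ∩ C ×ˢ Y := ⟨hpA, hp⟩
        rw [hAC] at this
        exact this
      refine ⟨fun _ => a, continuous_const, fun p _ => hAXY ha, fun p hp => ?_⟩
      constructor
      · intro h
        exact h ▸ ha
      · intro h
        exact absurd h (hnot p hp)
  choose! Fs hFs1 hFs2 hFs3 using hmain
  refine ⟨fun p => Fs (connectedComponentIn X p.1) p, ?_, ?_, ?_⟩
  · rintro ⟨x, s⟩ ⟨hx, hs⟩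
    have hxC : x ∈ connectedComponentIn X x := mem_connectedComponentIn hx
    obtain ⟨δ, hδ, hδC⟩ := hnear x hx x hxC
    have hcont : ContinuousWithinAt (Fs (connectedComponentIn X x)) (X ×ˢ Y) (x, s) :=
      (hFs1 _ ⟨x, hx, rfl⟩).continuousWithinAt
    refine hcont.congr_of_eventuallyEq ?_ rfl
    have hev : ∀ᶠ p : (Fin n → ℝ) × (Fin n → ℝ) in 𝓝[X ×ˢ Y] (x, s), dist p.1 x < δ :=
      mem_nhdsWithin_of_mem_nhds ((continuous_fst.continuousAt (x := (x, s))).eventually
        (ball_mem_nhds x hδ))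
    filter_upwards [self_mem_nhdsWithin, hev] with p hp hpd
    have : connectedComponentIn X x = connectedComponentIn X p.1 :=
      connectedComponentIn_eq (hδC p.1 hp.1 hpd)
    simp only [this]
  · intro p hp
    exact hFs2 _ ⟨p.1, hp.1, rfl⟩ p ⟨mem_connectedComponentIn hp.1, hp.2⟩
  · ext p
    constructor
    · rintro ⟨hp, hfp⟩
      exact (hFs3 _ ⟨p.1, hp.1, rfl⟩ p ⟨mem_connectedComponentIn hp.1, hp.2⟩).mp hfp
    · intro hp
      have hpX := hAXY hp
      exact ⟨hpX, (hFs3 _ ⟨p.1, hpX.1, rfl⟩ p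
        ⟨mem_connectedComponentIn hpX.1, hpX.2⟩).mpr hp⟩

end Pool.Agent.Results.MP_73b818_gt.ProductWithCube
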