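import Mathlib
import Pool.Agent.Run7.h118.Engine
import Pool.Agent.Run7.h118.Base
import Pool.Agent.Run7.h118.Thin
import Pool.Agent.Run7.h118.Extend

set_option autoImplicit false

open Set Filter Topology Uniformity Pool.Agent.Run7.h118

namespace Pool.Agent.Results.MP_73b818_gt.ThinAdditions

/-- Let `X` be a compact metric ANR, `B ⊆ A ⊆ X` closed, `A` nonempty.  Suppose that `B` is the
fixed point set of a map `F : X → X` whose restriction to `A` is homotopic, relative to `B`, to the
inclusion, and that `A \ B` is thin: for closed `C ⊆ A \ B` every map `C × [0,1] → X` can be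
approximated by maps `L'` with `L' (c, t) ≠ c` everywhere (for instance, every such `C` is a
Z-set).  Then `A` is the fixed point set of a map `X → X`. -/
theorem result :
    ∀ X : Set (ℕ → unitInterval), IsClosed X →
      (∃ U : Set (ℕ → unitInterval), IsOpen U ∧ X ⊆ U ∧
        ∃ r : (ℕ → unitInterval) → (ℕ → unitInterval),
          ContinuousOn r U ∧ Set.MapsTo r U X ∧ ∀ x ∈ X, r x = x) →
      ∀ A B : Set (ℕ → unitInterval), A ⊆ X → A.Nonempty → IsClosed A → B ⊆ A → IsClosed B →
      ∀ F : (ℕ → unitInterval) → (ℕ → unitInterval),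
      ContinuousOn F X → Set.MapsTo F X X → {x | x ∈ X ∧ F x = x} = B →
      ∀ K : (ℕ → unitInterval) × unitInterval → (ℕ → unitInterval),
      ContinuousOn K (A ×ˢ Set.univ) → Set.MapsTo K (A ×ˢ Set.univ) X →
      (∀ b ∈ A, K (b, 0) = b) → (∀ b ∈ A, K (b, 1) = F b) → (∀ b ∈ B, ∀ t, K (b, t) = b) →
      (∀ C : Set (ℕ → unitInterval), C ⊆ A \ B → IsClosed C →
        ∀ L : (ℕ → unitInterval) × unitInterval → (ℕ → unitInterval),
        ContinuousOn L (C ×ˢ Set.univ) → Set.MapsTo L (C ×ˢ Set.univ) X →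
        ∀ V ∈ 𝓤 (ℕ → unitInterval),
        ∃ L' : (ℕ → unitInterval) × unitInterval → (ℕ → unitInterval),
          ContinuousOn L' (C ×ˢ Set.univ) ∧ Set.MapsTo L' (C ×ˢ Set.univ) X ∧
          (∀ c ∈ C, ∀ t, (L (c, t), L' (c, t)) ∈ V) ∧ ∀ c ∈ C, ∀ t, L' (c, t) ≠ c) →
      ∃ f : (ℕ → unitInterval) → (ℕ → unitInterval),
        ContinuousOn f X ∧ Set.MapsTo f X X ∧ {x | x ∈ X ∧ f x = x} = A := by
  classical
  rintro X hXcl ⟨U, hU, hXU, r, hr, hm, hid⟩ A B hAX hAne hAcl hBA hBcl F hF hFX hFB K hK hKX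
    hK0 hK1 hKB hthin
  have : CompactSpace X := isCompact_iff_compactSpace.mp hXcl.isCompact
  obtain ⟨O, l, hO, hdiag, hl, hl0, hl1, hls⟩ := lec_of_anr hU hXU hr hm hid
  have hsubV : ∀ N : Set (X × X), IsOpen N → (∀ p, (p, p) ∈ N) →
      ∃ V ∈ 𝓤 (ℕ → unitInterval), ∀ p q : X, ((p : ℕ → unitInterval), (q : ℕ → unitInterval)) ∈ V →
        (p, q) ∈ N := by
    intro N hN hNd
    have h1 : N ∈ 𝓤 X := by
      rw [← nhdsSet_diagonal_eq_uniformity]
      apply hN.mem_nhdsSet.mpr
      rintro ⟨p, q⟩ hpq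
      rw [mem_diagonal_iff] at hpq
      simp only at hpq
      rw [hpq]
      exact hNd q
    rw [uniformity_subtype, mem_comap] at h1
    obtain ⟨V, hV, hVN⟩ := h1
    exact ⟨V, hV, fun p q hpq => hVN hpq⟩
  let _ : MetricSpace X := TopologicalSpace.metrizableSpaceMetric X
  set A' : Set X := {x | (x : ℕ → unitInterval) ∈ A} with hA'
  set B' : Set X := {x | (x : ℕ → unitInterval) ∈ B} with hB'
  have hA'cl : IsClosed A' := hAcl.preimage continuous_subtype_val
  have hB'cl : IsClosed B' := hBcl.preimage continuous_subtype_val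
  have hA'ne : A'.Nonempty := by
    obtain ⟨a, ha⟩ := hAne
    exact ⟨⟨a, hAX ha⟩, ha⟩
  set F' : X → X := fun x => ⟨F x, hFX x.2⟩ with hF'
  have hF'c : Continuous F' := Continuous.subtype_mk
    (hF.comp_continuous continuous_subtype_val (fun x => x.2)) _
  have hF'B : ∀ x, F' x = x ↔ x ∈ B' := by
    intro x
    have h2 : (x : ℕ → unitInterval) ∈ {x | x ∈ X ∧ F x = x} ↔ (x : ℕ → unitInterval) ∈ B := by
      rw [hFB]
    constructor
    · intro h
      exact h2.mp ⟨x.2, congrArg Subtype.val h⟩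
    · intro h
      exact Subtype.ext (h2.mpr h).2
  have hK'mem : ∀ p : A' × unitInterval, K (((p.1 : X) : ℕ → unitInterval), p.2) ∈ X :=
    fun p => hKX ⟨p.1.2, mem_univ _⟩
  have hK'c : Continuous fun p : A' × unitInterval =>
      (⟨K (((p.1 : X) : ℕ → unitInterval), p.2), hK'mem p⟩ : X) := by
    refine Continuous.subtype_mk ?_ _
    have hin : Continuous fun p : A' × unitInterval =>
        ((((p.1 : X) : ℕ → unitInterval), p.2) : (ℕ → unitInterval) × unitInterval) :=
      (continuous_subtype_val.comp (continuous_subtype_val.comp continuous_fst)).prodMk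
        continuous_snd
    exact hK.comp_continuous hin (fun p => ⟨p.1.2, mem_univ _⟩)
  set K' : C(A' × unitInterval, X) := ⟨_, hK'c⟩ with hK'
  have hthin' : ∀ C : Set X, IsClosed C → C ⊆ A' \ B' → ∀ L : X × unitInterval → X,
      ContinuousOn L (C ×ˢ univ) → ∀ N : Set (X × X), IsOpen N → (∀ p, (p, p) ∈ N) →
      ∃ L' : X × unitInterval → X, ContinuousOn L' (C ×ˢ univ) ∧
        (∀ p ∈ C ×ˢ (univ : Set unitInterval), (L p, L' p) ∈ N) ∧
          ∀ c ∈ C, ∀ t, L' (c, t) ≠ c := by
    intro C hC hCAB L hL N hN hNd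
    obtain ⟨V, hV, hVN⟩ := hsubV N hN hNd
    set C' : Set (ℕ → unitInterval) := Subtype.val '' C with hC'
    have hC'X : C' ⊆ X := by
      rintro _ ⟨x, _, rfl⟩
      exact x.2
    have hC'cl : IsClosed C' :=
      (hXcl.isClosedEmbedding_subtypeVal.isClosed_iff_image_isClosed).mp hC
    have hC'AB : C' ⊆ A \ B := by
      rintro _ ⟨x, hx, rfl⟩
      exact ⟨(hCAB hx).1, (hCAB hx).2⟩
    have hmemC : ∀ x (h : x ∈ X), x ∈ C' → (⟨x, h⟩ : X) ∈ C := by
      rintro x h ⟨y, hy, hyx⟩
      have : y = ⟨x, h⟩ := Subtype.ext hyx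
      rwa [← this]
    set Lc : (ℕ → unitInterval) × unitInterval → (ℕ → unitInterval) := fun p =>
      if h : p.1 ∈ X then (L (⟨p.1, h⟩, p.2) : ℕ → unitInterval) else p.1 with hLc
    have hLcc : ContinuousOn Lc (C' ×ˢ univ) := by
      rw [continuousOn_iff_continuous_domRestrict] at hL ⊢
      have hmap : Continuous fun p : (C' ×ˢ (univ : Set unitInterval) :
          Set ((ℕ → unitInterval) × unitInterval)) =>
          (⟨(⟨p.1.1, hC'X p.2.1⟩, p.1.2), ⟨hmemC _ _ p.2.1, mem_univ _⟩⟩ :
            (C ×ˢ (univ : Set unitInterval) : Set (X × unitInterval))) :=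
        Continuous.subtype_mk ((Continuous.subtype_mk
          (continuous_fst.comp continuous_subtype_val) _).prodMk
          (continuous_snd.comp continuous_subtype_val)) _
      have := continuous_subtype_val.comp (hL.comp hmap)
      convert this using 1
      ext p
      have hp : p.1.1 ∈ X := hC'X p.2.1
      show (Lc p.1 _ : ℝ) = _
      simp only [hLc, dif_pos hp]
      rfl
    have hLcX : MapsTo Lc (C' ×ˢ univ) X := by
      intro p hp
      simp only [hLc, dif_pos (hC'X hp.1)]
      exact (L _).2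
    obtain ⟨L', hL'c, hL'X, hL'V, hL'ne⟩ := hthin C' hC'AB hC'cl Lc hLcc hLcX V hV
    set M : X × unitInterval → X := fun p =>
      if h : L' ((p.1 : ℕ → unitInterval), p.2) ∈ X then ⟨L' ((p.1 : ℕ → unitInterval), p.2), h⟩
      else p.1 with hM
    have hMval : ∀ p ∈ C ×ˢ (univ : Set unitInterval),
        (M p : ℕ → unitInterval) = L' ((p.1 : ℕ → unitInterval), p.2) := by
      intro p hp
      have h : L' ((p.1 : ℕ → unitInterval), p.2) ∈ X := hL'X ⟨⟨p.1, hp.1, rfl⟩, mem_univ _⟩
      simp only [hM, dif_pos h]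
    refine ⟨M, ?_, ?_, ?_⟩
    · have hval : ContinuousOn (fun p : X × unitInterval => (M p : ℕ → unitInterval))
          (C ×ˢ univ) := by
        have : ContinuousOn (fun p : X × unitInterval => L' ((p.1 : ℕ → unitInterval), p.2))
            (C ×ˢ univ) := by
          have hin : Continuous fun p : X × unitInterval =>
              (((p.1 : ℕ → unitInterval), p.2) : (ℕ → unitInterval) × unitInterval) :=
            (continuous_subtype_val.comp continuous_fst).prodMk continuous_snd
          exact hL'c.comp hin.continuousOn (fun p hp => ⟨⟨p.1, hp.1, rfl⟩, mem_univ _⟩)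
        exact this.congr hMval
      rw [continuousOn_iff_continuous_domRestrict] at hval ⊢
      exact continuous_induced_rng.mpr hval
    · intro p hp
      apply hVN
      rw [hMval p hp]
      have := hL'V (p.1 : ℕ → unitInterval) ⟨p.1, hp.1, rfl⟩ p.2
      have hLp : Lc ((p.1 : ℕ → unitInterval), p.2) = L p := by
        simp only [hLc, dif_pos p.1.2]
      rwa [hLp] at this
    · intro c hc t h
      have h' := congrArg Subtype.val h
      rw [hMval (c, t) ⟨hc, mem_univ _⟩] at h'
      exact hL'ne (c : ℕ → unitInterval) ⟨c, hc, rfl⟩ t h'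
  obtain ⟨K1, hK10, hK11, hK1B, hK1ne⟩ := thin_homotopy hO hdiag hl hl0 hl1 hls hA'cl hB'cl F' K'
    (fun b => Subtype.ext (hK0 _ b.2)) (fun b => Subtype.ext (hK1 _ b.2))
    (fun b hb t => Subtype.ext (hKB _ hb t)) hthin'
  obtain ⟨k, hkc, hkA, hk1⟩ := total_extension hXcl hU hXU hr hm hid hA'cl F' hF'c K1 hK11
  have hkA' : ∀ b ∈ A', ∀ t (ht : t ∈ Icc (0 : ℝ) 1), ∀ hb : b ∈ A',
      k b t = K1 (⟨b, hb⟩, ⟨t, ht⟩) := by
    intro b hb t ht hb'
    exact hkA ⟨b, hb⟩ ⟨t, ht⟩
  obtain ⟨f, hf, hfA⟩ := engine hA'cl hA'ne k hkc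
    (by
      intro b hb
      rw [hkA' b hb 0 ⟨le_rfl, zero_le_one⟩ hb]
      exact hK10 ⟨b, hb⟩)
    (by
      intro b hb t ht hkt s hs
      by_cases hbB : b ∈ B'
      · rw [hkA' b hb s ⟨hs.1, hs.2.trans ht.2⟩ hb]
        exact hK1B ⟨b, hb⟩ hbB _
      · rcases eq_or_ne t 0 with h0 | h0
        · have hs0 : s = 0 := by
            rw [h0] at hs
            exact le_antisymm hs.2 hs.1
          rw [hs0, ← h0]
          exact hkt
        · exfalso
          rcases eq_or_ne t 1 with h1 | h1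
          · rw [h1, hk1] at hkt
            exact hbB ((hF'B b).mp hkt)
          · rw [hkA' b hb t ht hb] at hkt
            refine hK1ne ⟨b, hb⟩ hbB ⟨t, ht⟩ ?_ ?_ hkt
            · intro h
              exact h0 (congrArg Subtype.val h)
            · intro h
              exact h1 (congrArg Subtype.val h))
    (by
      intro x hx h
      rw [hk1] at h
      exact hx (hBA ((hF'B x).mp h)))
  refine ⟨fun x => if h : x ∈ X then (f ⟨x, h⟩ : ℕ → unitInterval) else x, ?_, ?_, ?_⟩
  · rw [continuousOn_iff_continuous_domRestrict]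
    have : X.domRestrict (fun x => if h : x ∈ X then (f ⟨x, h⟩ : ℕ → unitInterval) else x)
        = fun x : X => (f x : ℕ → unitInterval) := by
      ext x
      simp [Set.domRestrict]
    rw [this]
    exact continuous_subtype_val.comp hf
  · intro x hx
    simp only [dif_pos hx]
    exact (f ⟨x, hx⟩).2
  · ext x
    constructor
    · rintro ⟨hx, hfx⟩
      simp only [dif_pos hx] at hfx
      exact (hfA ⟨x, hx⟩).mp (Subtype.ext hfx)
    · intro hx
      refine ⟨hAX hx, ?_⟩
      simp only [dif_pos (hAX hx)]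
      have := (hfA ⟨x, hAX hx⟩).mpr hx
      rw [this]

end Pool.Agent.Results.MP_73b818_gt.ThinAdditions
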